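import Pool.Agent.Helper32.AG.Goals

/-!
# PROJECT AG, packet AGQ: images and preimages of groups with abelian Sylow subgroups
-/

set_option autoImplicit false

namespace Pool.Agent.Helper56.AG

open Pool.Agent.Helper32.AG

universe u

theorem agq_inj (G G' : Type u) [Group G] [Group G'] (f : G →* G')
    (hf : Function.Injective f) (h : AbS G') : AbS G := by
  intro p hp P hP x hx y hy
  apply hf
  rw [map_mul, map_mul]
  exact h p hp (P.map f) (hP.map f) _ (Subgroup.mem_map_of_mem f hx) _
    (Subgroup.mem_map_of_mem f hy)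

theorem agq_surj (G G' : Type u) [Group G] [Group G'] [Finite G] (f : G →* G')
    (hf : Function.Surjective f) (h : AbS G) : AbS G' := by
  intro p hp P hP x hx y hy
  have : Fact p.Prime := ⟨hp⟩
  have hs : Function.Surjective (f.subgroupComap P) :=
    MonoidHom.subgroupComap_surjective_of_surjective f P hf
  obtain ⟨Q⟩ : Nonempty (Sylow p (P.comap f)) := inferInstance
  have htop : IsPGroup p (⊤ : Subgroup P) := hP.to_subgroup ⊤
  have hQ : (⊤ : Subgroup P) = (Q.mapSurjective hs : Subgroup P) :=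
    (Q.mapSurjective hs).is_maximal' htop le_top
  have key : ∀ z ∈ P, ∃ g ∈ (Q : Subgroup (P.comap f)).map (P.comap f).subtype, f g = z := by
    intro z hz
    have h1 : (⟨z, hz⟩ : P) ∈ (Q.mapSurjective hs : Subgroup P) := by
      rw [← hQ]
      exact Subgroup.mem_top _
    rw [Sylow.coe_mapSurjective] at h1
    obtain ⟨g, hg, hgz⟩ := h1
    exact ⟨(g : G), ⟨g, hg, rfl⟩, congrArg Subtype.val hgz⟩
  obtain ⟨a, ha, rfl⟩ := key x hx
  obtain ⟨b, hb, rfl⟩ := key y hy
  have h2 : IsPGroup p ((Q : Subgroup (P.comap f)).map (P.comap f).subtype) :=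
    Q.isPGroup'.map _
  rw [← map_mul, ← map_mul, h p hp _ h2 a ha b hb]

theorem agq : AgqStmt.{u} := ⟨agq_surj, agq_inj⟩

end Pool.Agent.Helper56.AG
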